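import Pool.Agent.H32.Dense.EntX

/-!
# The upper bound for the rows of a window-free height (weighted ball frontier lemma)

`/team-store/K_STAT_helper80.md`, (6.2) and (6.3), pure form. `A` is the label of level `w + u`,
`S` the finer label whose sheet knows the height to `P₂` digits, `B` the base (all coordinates, to
`b i` digits, and the time), `X₁` and `X₂` are all coordinates to `P₁` and to `P₂` digits, `TT` is
the base to `max (b i) P₂` digits, and `N₂` is the height to `P₂` digits.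
-/

set_option autoImplicit false

namespace Pool.STC

open Finset Real
open Pool.Agent.H49.Ent Pool.Agent.H32.Dense

section cnt

variable {Ω : Type*} [Fintype Ω] {α σ β χ χ' τ ν : Type*}

/-- The base beyond `B` is full given the label `S` and the height. -/
theorem base_ge {p : Ω → ℝ} (hp : ∀ ω, 0 ≤ p ω) {A : Ω → α} {S : Ω → σ} {B : Ω → β}
    {TT : Ω → τ} {N₂ : Ω → ν} {tS bS e : ℝ} (hSA : Det p S A)
    (e4 : tS ≤ CH p TT S) (e5 : CH p B S ≤ bS)
    (e6 : CH p N₂ (fun ω => (B ω, S ω)) ≤ e) :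
    tS - bS - e ≤ CH p TT (fun ω => (N₂ ω, (B ω, A ω))) := by
  -- `A` is replaced by the finer label `S`
  have h1 : CH p TT (fun ω => (N₂ ω, (B ω, S ω))) ≤ CH p TT (fun ω => (N₂ ω, (B ω, A ω))) :=
    CH_mono_cond hp (fun ω ω' a b h => by
      simp only [Prod.mk.injEq] at h ⊢
      exact ⟨h.1, h.2.1, hSA ω ω' a b h.2.2⟩)
  -- the height costs `e`
  have h2 : CH p TT (fun ω => (B ω, S ω)) ≤
      CH p N₂ (fun ω => (B ω, S ω)) + CH p TT (fun ω => (N₂ ω, (B ω, S ω))) :=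
    CH_le_add hp TT N₂ _
  -- the part `B` costs `bS`
  have h3 : CH p TT S ≤ CH p B S + CH p TT (fun ω => (B ω, S ω)) := CH_le_add hp TT B S
  linarith

/-- **The upper bound.** -/
theorem cnt_le {p : Ω → ℝ} (hp : ∀ ω, 0 ≤ p ω) {A : Ω → α} {S : Ω → σ} {B : Ω → β} {X₁ : Ω → χ}
    {X₂ : Ω → χ'} {TT : Ω → τ} {N₂ : Ω → ν} {x₁ r b₇ nB tS bS e : ℝ} (hSA : Det p S A)
    (hT : Det p (fun ω => (X₂ ω, (B ω, A ω))) TT)
    (hN : Det p (fun ω => (X₂ ω, (B ω, A ω))) N₂)
    (e1 : CH p X₂ (fun ω => (X₁ ω, A ω)) ≤ r) (e2 : nB ≤ CH p B A) (e3 : CH p X₁ A ≤ x₁)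
    (e4 : tS ≤ CH p TT S) (e5 : CH p B S ≤ bS) (e6 : CH p N₂ (fun ω => (B ω, S ω)) ≤ e)
    (e7 : CH p B (fun ω => (X₂ ω, A ω)) ≤ b₇) :
    CH p N₂ (fun ω => (B ω, A ω)) ≤ (x₁ + r + b₇ - nB) - (tS - bS) + e := by
  have hb := base_ge hp hSA e4 e5 e6
  have h1 : CH p (fun ω => (TT ω, N₂ ω)) (fun ω => (B ω, A ω)) =
      CH p N₂ (fun ω => (B ω, A ω)) + CH p TT (fun ω => (N₂ ω, (B ω, A ω))) :=
    CH_chain hp TT N₂ _
  have h2 : CH p (fun ω => (TT ω, N₂ ω)) (fun ω => (B ω, A ω)) ≤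
      CH p X₂ (fun ω => (B ω, A ω)) :=
    CH_mono_left hp (fun ω ω' a b h => by
      have h3 := hT ω ω' a b h
      have h4 := hN ω ω' a b h
      simp only [Prod.mk.injEq]
      exact ⟨h3, h4⟩)
  -- `H(X₂ | B, A) = H(B, X₂ | A) - H(B | A)`
  have h3 : CH p (fun ω => (X₂ ω, B ω)) A = CH p B A + CH p X₂ (fun ω => (B ω, A ω)) :=
    CH_chain hp X₂ B A
  have h4 : CH p (fun ω => (B ω, X₂ ω)) A = CH p X₂ A + CH p B (fun ω => (X₂ ω, A ω)) :=
    CH_chain hp B X₂ A
  have h5 : CH p (fun ω => (X₂ ω, B ω)) A = CH p (fun ω => (B ω, X₂ ω)) A :=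
    CH_congr hp (fun ω ω' _ _ h => by
      simp only [Prod.mk.injEq] at h ⊢
      tauto) (fun ω ω' _ _ h => by
      simp only [Prod.mk.injEq] at h ⊢
      tauto) (fun _ _ _ _ h => h) (fun _ _ _ _ h => h)
  have h6 : CH p X₂ A ≤ CH p X₁ A + CH p X₂ (fun ω => (X₁ ω, A ω)) := CH_le_add hp X₂ X₁ A
  linarith

end cnt

/-- The three cases of the count of one coordinate. -/
theorem case3 (b P₁ P₂ : ℝ) (h : P₁ ≤ P₂) :
    max (P₁ - b) 0 - max (min b P₂ - P₁) 0 - max (P₂ - b) 0 = -(P₂ - P₁) := by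
  rcases le_total b P₁ with h1 | h1
  · rw [min_eq_left (h1.trans h), max_eq_left (by linarith), max_eq_right (by linarith),
      max_eq_left (by linarith)]
    ring
  · rcases le_total b P₂ with h2 | h2
    · rw [min_eq_left h2, max_eq_right (by linarith), max_eq_left (by linarith),
        max_eq_left (by linarith)]
      ring
    · rw [min_eq_right h2, max_eq_right (by linarith), max_eq_left (by linarith),
        max_eq_right (by linarith)]
      ring

/-- The numbers of one coordinate: natural levels `a` (of `A`) and `s` (of `S`). -/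
theorem numb (a s b P₁ P₂ : ℝ) :
    (P₁ - a) + max (b - P₂) 0 - (b - a) - ((max b P₂ - s) - (b - s)) = -(P₂ - P₁) := by
  rcases le_total b P₂ with h | h
  · rw [max_eq_right (by linarith), max_eq_right h]
    ring
  · rw [max_eq_left (by linarith), max_eq_left h]
    ring

section sum

variable {Ω : Type*} [Fintype Ω] {α σ β χ χ' τ ν : Type*}

/-- **The upper bound, with the numbers.** `ι` is the set of the coordinates of the base (without
the time), `a i` and `s i` are their natural levels for the labels `A` and `S`; the time is known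
to `J` digits in `X₁`, `X₂`, `TT`, and to `bt` digits in `B`, its natural levels are `ta`, `ts`. All
errors are `d`. -/
theorem cnt_sum {ι : Type*} [Fintype ι] {p : Ω → ℝ} (hp : ∀ ω, 0 ≤ p ω) {A : Ω → α} {S : Ω → σ}
    {B : Ω → β} {X₁ : Ω → χ} {X₂ : Ω → χ'} {TT : Ω → τ} {N₂ : Ω → ν} {a s b : ι → ℝ}
    {P₁ P₂ J bt ta ts c d : ℝ} (hSA : Det p S A)
    (hT : Det p (fun ω => (X₂ ω, (B ω, A ω))) TT) (hN : Det p (fun ω => (X₂ ω, (B ω, A ω))) N₂)
    (e1 : CH p X₂ (fun ω => (X₁ ω, A ω)) ≤ (Fintype.card ι + 1 - c) * (P₂ - P₁) + d)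
    (e2 : ∑ i, (b i - a i) + (bt - ta) - d ≤ CH p B A)
    (e3 : CH p X₁ A ≤ ∑ i, (P₁ - a i) + (J - ta) + d)
    (e4 : ∑ i, (max (b i) P₂ - s i) + (J - ts) - d ≤ CH p TT S)
    (e5 : CH p B S ≤ ∑ i, (b i - s i) + (bt - ts) + d)
    (e6 : CH p N₂ (fun ω => (B ω, S ω)) ≤ d)
    (e7 : CH p B (fun ω => (X₂ ω, A ω)) ≤ ∑ i, max (b i - P₂) 0 + d) :
    CH p N₂ (fun ω => (B ω, A ω)) ≤ (1 - c) * (P₂ - P₁) + 7 * d := by
  have h := cnt_le hp hSA hT hN e1 e2 e3 e4 e5 e6 e7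
  have h2 : ∑ i, ((P₁ - a i) + max (b i - P₂) 0 - (b i - a i) -
      ((max (b i) P₂ - s i) - (b i - s i))) = ∑ _i : ι, -(P₂ - P₁) :=
    Finset.sum_congr rfl fun i _ => numb _ _ _ _ _
  simp only [Finset.sum_sub_distrib, Finset.sum_add_distrib, Finset.sum_const, Finset.card_univ,
    nsmul_eq_mul] at h2 h
  linarith

end sum

end Pool.STC
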